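import Pool.Agent.W831.ECC.God

set_option autoImplicit false

namespace Pool.Agent.Results.MP_5dc923_co.SlackedWeights

open Pool.Agent.H126R2.CDC (MGraph)

/-- Goddyn's conjecture for eulerian admissible weights with relative slack in the cuts. Let
`0 < ε ≤ 1`, let `G` be a finite graph with `N` edges and `w` an eulerian admissible weight with
`w(e) ≥ 40000 ε⁻² log (2N)` for every edge `e`. If for every edge cut `T` with at least three edges
and every edge `e` of `T` we have `w(e) ≤ (1 - ε) w(T \ e)`, then `(G, w)` has a faithful circuit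
cover. -/
theorem result (ε : ℝ) (hε : 0 < ε) (hε1 : ε ≤ 1)
    (V E : Type) [Fintype V] [DecidableEq V] [Fintype E] [DecidableEq E]
    (G : MGraph V E) (w : E → ℕ)
    (heul : ∀ (X : Finset V) (T : Finset E),
      (∀ f, f ∈ T ↔ ∃ a ∈ X, ∃ b ∉ X, G.ends f = s(a, b)) → Even (∑ e ∈ T, w e))
    (hadm : ∀ (X : Finset V) (T : Finset E),
      (∀ f, f ∈ T ↔ ∃ a ∈ X, ∃ b ∉ X, G.ends f = s(a, b)) → ∀ e ∈ T, 2 * w e ≤ ∑ f ∈ T, w f)
    (hbig : ∀ e, 40000 / ε ^ 2 * Real.log (2 * Fintype.card E) ≤ w e)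
    (hslack : ∀ (X : Finset V) (T : Finset E),
      (∀ f, f ∈ T ↔ ∃ a ∈ X, ∃ b ∉ X, G.ends f = s(a, b)) → 3 ≤ T.card →
      ∀ e ∈ T, (w e : ℝ) ≤ (1 - ε) * ∑ f ∈ T.erase e, (w f : ℝ)) :
    ∃ F : Multiset (Finset E), (∀ C ∈ F, G.IsCircuit C) ∧
      ∀ e, F.countP (fun C => e ∈ C) = w e :=
  Pool.Agent.W831.ECC.goddyn_slack ε hε hε1 G w heul hadm hbig hslack

end Pool.Agent.Results.MP_5dc923_co.SlackedWeights
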