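import Pool.Agent.W831.HI.God

set_option autoImplicit false

/-!
Goddyn's conjecture for eulerian admissible weights that are constant on a circuit and constant
off it.
-/

namespace Pool.Agent.Results.MP_5dc923_co.TwoValued

open Finset
open Pool.Agent.H126R2.CDC (MGraph)

/-- Let `C` be a circuit of the finite graph `G` and let `w` be a positive integer weight on the
edges that is eulerian, admissible, constant on `C` and constant off `C`. Suppose that `C` contains
a vertex of degree three of `G` (for instance, that `G` is cubic), or that no weight is more than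
twice the weight on `C`. Suppose moreover that the weight off `C` is not exactly twice an odd
weight on `C`. Then `(G, w)` has a faithful circuit cover. -/
theorem result {V E : Type} [Fintype V] [DecidableEq V] [Fintype E] [DecidableEq E]
    (G : MGraph V E) (C : Finset E) (hC : G.IsCircuit C) (w : E → ℕ) (hpos : ∀ e, 0 < w e)
    (heul : ∀ (X : Finset V) (T : Finset E),
      (∀ f, f ∈ T ↔ ∃ a ∈ X, ∃ b ∉ X, G.ends f = s(a, b)) → Even (∑ e ∈ T, w e))
    (hadm : ∀ (X : Finset V) (T : Finset E),
      (∀ f, f ∈ T ↔ ∃ a ∈ X, ∃ b ∉ X, G.ends f = s(a, b)) → ∀ e ∈ T, 2 * w e ≤ ∑ f ∈ T, w f)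
    (hw : ∀ e f, (e ∈ C ↔ f ∈ C) → w e = w f)
    (h : (∃ v, G.deg univ v = 3 ∧ G.deg C v = 2) ∨ ∀ e ∈ C, ∀ f, w f ≤ 2 * w e)
    (hodd : ∀ e ∈ C, ∀ f, w f = 2 * w e → Even (w e)) :
    ∃ F : Multiset (Finset E), (∀ D ∈ F, G.IsCircuit D) ∧
      ∀ e, F.countP (fun D => e ∈ D) = w e :=
  Pool.Agent.W831.HI.goddyn_two G C hC w hpos heul hadm hw h.symm hodd

end Pool.Agent.Results.MP_5dc923_co.TwoValued
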